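import Mathlib
import Pool.Agent.S13621

set_option autoImplicit false

/-! Positive answer to Q1 in the words of the problem file, in a strong form: equivariant compactifications
in every universe, a zero-dimensional space, and one point and one closed set which no continuous
equivariant map into a compact Hausdorff space with a continuous action of the rationals separates. -/

open Topology Filter Set

namespace Pool.Agent.Results.MP_984099_gt.PointNotSeparated

universe u v

/-- `ν : X → Y` is an equivariant compactification of the `ℚ`-space `X`: the space `Y` is compact Hausdorff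
with a continuous action of the rationals, and `ν` is an equivariant topological embedding with dense image. -/
structure IsQCompactification (X : Type u) [TopologicalSpace X] [AddAction ℚ X]
    (Y : Type v) [TopologicalSpace Y] [AddAction ℚ Y] (ν : X → Y) : Prop where
  compact : CompactSpace Y
  hausdorff : T2Space Y
  continuous_action : Continuous (fun p : ℚ × Y => p.1 +ᵥ p.2)
  embedding : IsEmbedding ν
  dense : DenseRange ν
  equivariant : ∀ (q : ℚ) (x : X), ν (q +ᵥ x) = q +ᵥ ν x

/-- `X` is `ℚ`-Tychonoff: it has an equivariant compactification (in the universe `v`). -/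
def IsQTychonoff (X : Type u) [TopologicalSpace X] [AddAction ℚ X] : Prop :=
  ∃ (Y : Type v) (_ : TopologicalSpace Y) (_ : AddAction ℚ Y) (ν : X → Y), IsQCompactification X Y ν

lemma uniform_of_compact {Y : Type v} [TopologicalSpace Y] [AddAction ℚ Y]
    (hY : Continuous (fun p : ℚ × Y => p.1 +ᵥ p.2)) [CompactSpace Y] (φ : C(Y, ℝ)) :
    ∀ ε > 0, ∃ δ > 0, ∀ q : ℚ, |(q : ℝ)| < δ → ∀ y : Y, |φ (q +ᵥ y) - φ y| < ε := by
  intro ε hε
  have h1 : ∀ᶠ q in 𝓝 (0 : ℚ), ∀ y ∈ (Set.univ : Set Y), |φ (q +ᵥ y) - φ y| < ε := by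
    apply IsCompact.eventually_forall_of_forall_eventually isCompact_univ
    intro y _
    have hcont : Continuous fun z : ℚ × Y => |φ (z.1 +ᵥ z.2) - φ z.2| :=
      ((φ.continuous.comp hY).sub (φ.continuous.comp continuous_snd)).abs
    have h3 : |φ ((0 : ℚ) +ᵥ y) - φ y| < ε := by
      rw [zero_vadd, sub_self, abs_zero]
      exact hε
    exact (isOpen_lt hcont continuous_const).mem_nhds (x := ((0 : ℚ), y)) h3
  obtain ⟨δ, hδ, hball⟩ := Metric.eventually_nhds_iff.1 h1
  refine ⟨δ, hδ, fun q hq y => hball ?_ y (Set.mem_univ y)⟩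
  rw [Rat.dist_eq]
  simpa using hq

/-- There is a `ℚ`-space `X` (continuous action of the additive group of rationals) which is Hausdorff with
a basis of clopen sets, so in particular Tychonoff, and which is not `ℚ`-Tychonoff. More precisely there
are a point `x₀` and a closed set `C` of `X` not containing it such that for every continuous equivariant
map `f` from `X` into a compact Hausdorff space with a continuous action of the rationals the point `f x₀`
lies in the closure of `f '' C`. -/
theorem result :
    ∃ (X : Type) (_ : TopologicalSpace X) (_ : AddAction ℚ X),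
      Continuous (fun p : ℚ × X => p.1 +ᵥ p.2) ∧ T2Space X ∧ CompletelyRegularSpace X ∧
      TopologicalSpace.IsTopologicalBasis {U : Set X | IsClopen U} ∧
      ¬ IsQTychonoff.{0, v} X ∧
      ∃ (x₀ : X) (C : Set X), IsClosed C ∧ x₀ ∉ C ∧
        ∀ (Y : Type v) (_ : TopologicalSpace Y) (_ : AddAction ℚ Y),
          CompactSpace Y → T2Space Y → Continuous (fun p : ℚ × Y => p.1 +ᵥ p.2) →
          ∀ f : X → Y, Continuous f → (∀ (q : ℚ) (x : X), f (q +ᵥ x) = q +ᵥ f x) →
            f x₀ ∈ closure (f '' C) := by
  have main : ∃ (x₀ : S13621.X) (C : Set S13621.X), IsClosed C ∧ x₀ ∉ C ∧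
        ∀ (Y : Type v) (_ : TopologicalSpace Y) (_ : AddAction ℚ Y),
          CompactSpace Y → T2Space Y → Continuous (fun p : ℚ × Y => p.1 +ᵥ p.2) →
          ∀ f : S13621.X → Y, Continuous f → (∀ (q : ℚ) (x : S13621.X), f (q +ᵥ x) = q +ᵥ f x) →
            f x₀ ∈ closure (f '' C) := by
    set C₀ : Set S13621.X := {p | ∃ d : S13621.D, p = S13621.pt 0 (.a 0 [] d)} with hC
    have h1 : S13621.pt 0 .o ∉ closure C₀ := by
      rw [mem_closure_iff_nhds]
      intro hcl
      have hU : {s : S13621.Pt | s = .o ∨ 1 ≤ S13621.stage s} ∈ 𝓝 (S13621.Pt.o) := by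
        rw [S13621.nhds_pt, ← Filter.eventually_mem_set, S13621.ev_nb, S13621.ev_o]
        exact ⟨Or.inl rfl, 1, fun z hz => Or.inr hz⟩
      have hV : (fun p : S13621.X => (S13621.emb p).2) ⁻¹'
          {s : S13621.Pt | s = .o ∨ 1 ≤ S13621.stage s} ∈ 𝓝 (S13621.pt 0 .o) :=
        S13621.continuous_pt.continuousAt.preimage_mem_nhds hU
      obtain ⟨p, hp1, d, rfl⟩ := hcl _ hV
      rcases hp1 with h | h
      · exact absurd h (by simp [S13621.emb, S13621.pt])
      · have : S13621.stage (S13621.Pt.a 0 [] d) = 0 := rfl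
        have h' : 1 ≤ S13621.stage (S13621.Pt.a 0 [] d) := h
        omega
    refine ⟨S13621.pt 0 .o, closure C₀, isClosed_closure, h1, ?_⟩
    intro Y _ _ _ _ hY f hf hequi
    by_contra h2
    obtain ⟨φ, hφ0, hφ1, -⟩ := exists_continuous_zero_one_of_isClosed
      (isClosed_singleton (x := f (S13621.pt 0 .o))) (isClosed_closure (s := f '' closure C₀))
      (Set.disjoint_singleton_left.2 h2)
    have hc : Continuous fun p : S13621.X => φ (f p) := φ.continuous.comp hf
    refine S13621.no_separation (ψ := fun p => φ (f p)) hc ?_ ?_ ?_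
    · intro ε hε
      obtain ⟨δ, hδ, h⟩ := uniform_of_compact hY φ ε hε
      refine ⟨δ, hδ, fun q hq p => ?_⟩
      show |φ (f (q +ᵥ p)) - φ (f p)| < ε
      rw [hequi]
      exact h q hq (f p)
    · exact hφ0 rfl
    · intro d
      exact hφ1 (subset_closure ⟨_, subset_closure ⟨d, rfl⟩, rfl⟩)
  refine ⟨S13621.X, inferInstance, inferInstance, continuous_vadd, inferInstance, inferInstance, ?_, ?_, main⟩
  · refine TopologicalSpace.isTopologicalBasis_of_isOpen_of_nhds (fun U hU => hU.2) ?_
    intro p V hp hV
    obtain ⟨K, hK1, hK2, hK3⟩ := S13621.exists_clopen_X (hV.mem_nhds hp)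
    exact ⟨K, hK1, hK2, hK3⟩
  · rintro ⟨Y, _, _, ν, h⟩
    obtain ⟨x₀, C, hC, hx, hm⟩ := main
    have h1 := hm Y _ _ h.compact h.hausdorff h.continuous_action ν h.embedding.continuous h.equivariant
    apply hx
    have h2 : x₀ ∈ closure C := by
      rw [h.embedding.isInducing.closure_eq_preimage_closure_image]
      exact h1
    rwa [hC.closure_eq] at h2

end Pool.Agent.Results.MP_984099_gt.PointNotSeparated
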